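import Pool.Agent.W670.LL.Stm

set_option autoImplicit false

/-! Project LL: a rational function over `ZMod q` with derivative zero is a `q`-th power. -/

namespace Pool.Agent.W54.LL

open Pool.Agent.W670.LL Polynomial

theorem map_poly {k : Type} [Field k] (D : Derivation k (RatFunc k) (RatFunc k))
    (hD : D RatFunc.X = 1) (p : k[X]) :
    D (algebraMap k[X] (RatFunc k) p) = algebraMap k[X] (RatFunc k) (derivative p) := by
  have e : ∀ r : k[X], algebraMap k[X] (RatFunc k) r = aeval (RatFunc.X : RatFunc k) r := by
    intro r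
    rw [← RatFunc.algebraMap_X, aeval_algebraMap_apply, aeval_X_left_apply]
  rw [e, Derivation.map_aeval, hD, smul_eq_mul, mul_one, ← e]

theorem Hr_div {k : Type} [Field k] (a b : k[X]) (hb : b ≠ 0) (h : IsCoprime a b) :
    Hr (algebraMap k[X] (RatFunc k) a / algebraMap k[X] (RatFunc k) b) =
      max a.natDegree b.natDegree := by
  set g := algebraMap k[X] (RatFunc k) a / algebraMap k[X] (RatFunc k) b with hg
  have hb' : algebraMap k[X] (RatFunc k) b ≠ 0 := RatFunc.algebraMap_ne_zero hb
  have hd' : algebraMap k[X] (RatFunc k) g.denom ≠ 0 :=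
    RatFunc.algebraMap_ne_zero g.denom_ne_zero
  have h1 : a * g.denom = g.num * b := by
    apply RatFunc.algebraMap_injective
    rw [map_mul, map_mul]
    have h2 := RatFunc.num_div_denom g
    rw [div_eq_iff hd'] at h2
    rw [h2, hg]
    field_simp
  have hc := RatFunc.isCoprime_num_denom g
  have hbd : b ∣ g.denom := (h.symm).dvd_of_dvd_mul_left ⟨g.num, by rw [h1]; ring⟩
  have hdb : g.denom ∣ b := (hc.symm).dvd_of_dvd_mul_left ⟨a, by rw [← h1]; ring⟩
  have h3 : g.denom.natDegree = b.natDegree :=
    le_antisymm (natDegree_le_of_dvd hdb hb) (natDegree_le_of_dvd hbd g.denom_ne_zero)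
  have h4 : g.num.natDegree = a.natDegree := by
    by_cases ha : a = 0
    · subst ha
      have : g.num = 0 := by
        rw [zero_mul] at h1
        exact (mul_eq_zero.1 h1.symm).resolve_right hb
      rw [this]
    · have hn : g.num ≠ 0 := by
        intro h0
        rw [h0, zero_mul] at h1
        exact (mul_ne_zero ha g.denom_ne_zero) h1
      have := congrArg natDegree h1
      rw [natDegree_mul ha g.denom_ne_zero, natDegree_mul hn hb] at this
      omega
  unfold Hr
  rw [h3, h4]

theorem qp : S_QP := by
  intro q hq D hD f hf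
  haveI : CharP (ZMod q) q := ZMod.charP q
  have hq0 : q ≠ 0 := hq.out.ne_zero
  have hd' : algebraMap (ZMod q)[X] (RatFunc (ZMod q)) f.denom ≠ 0 :=
    RatFunc.algebraMap_ne_zero f.denom_ne_zero
  have h1 : f * algebraMap (ZMod q)[X] (RatFunc (ZMod q)) f.denom =
      algebraMap (ZMod q)[X] (RatFunc (ZMod q)) f.num := by
    have h2 := RatFunc.num_div_denom f
    rw [div_eq_iff hd'] at h2
    exact h2.symm
  have h2 : f * algebraMap (ZMod q)[X] (RatFunc (ZMod q)) (derivative f.denom) =
      algebraMap (ZMod q)[X] (RatFunc (ZMod q)) (derivative f.num) := by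
    have := congrArg D h1
    rw [D.leibniz, hf, smul_zero, add_zero, map_poly D hD, map_poly D hD, smul_eq_mul] at this
    exact this
  have h3 : f.num * derivative f.denom = derivative f.num * f.denom := by
    apply RatFunc.algebraMap_injective
    rw [map_mul, map_mul, ← h1, ← h2]
    ring
  have hc := RatFunc.isCoprime_num_denom f
  have hn0 : derivative f.num = 0 := by
    by_cases hn : f.num = 0
    · rw [hn, derivative_zero]
    · exact eq_zero_of_dvd_of_degree_lt
        (hc.dvd_of_dvd_mul_right ⟨derivative f.denom, h3.symm⟩) (degree_derivative_lt hn)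
  have hd0 : derivative f.denom = 0 :=
    eq_zero_of_dvd_of_degree_lt
      (hc.symm.dvd_of_dvd_mul_left ⟨derivative f.num, by rw [h3]; ring⟩)
      (degree_derivative_lt f.denom_ne_zero)
  set a := contract q f.num with ha
  set b := contract q f.denom with hb
  have ea : f.num = a ^ q := by
    rw [← ZMod.expand_card, ha, expand_contract q hn0 hq0]
  have eb : f.denom = b ^ q := by
    rw [← ZMod.expand_card, hb, expand_contract q hd0 hq0]
  have hb0 : b ≠ 0 := by
    intro h0
    apply f.denom_ne_zero
    rw [eb, h0, zero_pow hq0]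
  have hab : IsCoprime a b := by
    rw [ea, eb] at hc
    exact (IsCoprime.pow_iff (Nat.pos_of_ne_zero hq0) (Nat.pos_of_ne_zero hq0)).1 hc
  refine ⟨algebraMap _ _ a / algebraMap _ _ b, ?_, ?_⟩
  · rw [div_pow, ← map_pow, ← map_pow, ← ea, ← eb]
    exact (RatFunc.num_div_denom f).symm
  · rw [Hr_div a b hb0 hab]
    unfold Hr
    rw [ea, eb, natDegree_pow, natDegree_pow, Nat.mul_max_mul_left]

end Pool.Agent.W54.LL
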